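import Mathlib

/-!
# Baire category: projections of closed relations are Borel on a comeagre set
-/

open Set Filter Topology

namespace Helper212.GenBorel

variable {D : Type*} [TopologicalSpace D]

/-- The points at which `A` is everywhere locally nonmeagre. -/
def hull (A : Set D) : Set D := {d | ∀ W : Set D, IsOpen W → d ∈ W → ¬ IsMeagre (A ∩ W)}

theorem isClosed_hull (A : Set D) : IsClosed (hull A) := by
  rw [← isOpen_compl_iff, isOpen_iff_forall_mem_open]
  intro d hd
  simp only [hull, mem_compl_iff, mem_setOf_eq, not_forall, not_not] at hd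
  obtain ⟨W, hW, hdW, hm⟩ := hd
  exact ⟨W, fun e he h => h W hW he hm, hW, hdW⟩

theorem hull_subset_closure (A : Set D) : hull A ⊆ closure A := by
  intro d hd
  by_contra h
  refine hd (closure A)ᶜ isClosed_closure.isOpen_compl h ?_
  have : A ∩ (closure A)ᶜ = ∅ := by
    ext x; constructor
    · rintro ⟨h1, h2⟩; exact h2 (subset_closure h1)
    · simp
  rw [this]; exact IsMeagre.empty

theorem isMeagre_diff_hull [SecondCountableTopology D] (A : Set D) : IsMeagre (A \ hull A) := by
  have h : A \ hull A ⊆ ⋃ W ∈ {W ∈ TopologicalSpace.countableBasis D | IsMeagre (A ∩ W)}, A ∩ W := by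
    rintro d ⟨hdA, hd⟩
    simp only [hull, mem_setOf_eq, not_forall, not_not] at hd
    obtain ⟨W, hW, hdW, hm⟩ := hd
    obtain ⟨V, hV, hdV, hVW⟩ :=
      (TopologicalSpace.isBasis_countableBasis D).exists_subset_of_mem_open hdW hW
    simp only [mem_iUnion]
    exact ⟨V, ⟨hV, hm.mono (inter_subset_inter_right _ hVW)⟩, hdA, hdV⟩
  exact (isMeagre_biUnion ((TopologicalSpace.countable_countableBasis D).mono
    (fun W hW => hW.1)) (fun W hW => hW.2)).mono h

theorem isMeagre_inter_compl_hull [SecondCountableTopology D] (A : Set D) :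
    IsMeagre (A ∩ (hull A)ᶜ) := isMeagre_diff_hull A

theorem isMeagre_hull_iUnion [SecondCountableTopology D] {ι : Type*} [Countable ι]
    (A : ι → Set D) : IsMeagre (hull (⋃ i, A i) \ ⋃ i, hull (A i)) := by
  set H := hull (⋃ i, A i) with hH
  set K : Set D := ⋂ i, (hull (A i))ᶜ with hK
  have hKm : BaireMeasurableSet K := by
    apply BaireMeasurableSet.iInter
    intro i
    exact (isClosed_hull (A i)).isOpen_compl.baireMeasurableSet
  obtain ⟨u, hu, hKu⟩ := hKm.residualEq_isOpen
  have hm1 : IsMeagre ((⋃ i, A i) ∩ K) := by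
    have : (⋃ i, A i) ∩ K ⊆ ⋃ i, (A i ∩ (hull (A i))ᶜ) := by
      rintro d ⟨hd, hdK⟩
      obtain ⟨i, hi⟩ := mem_iUnion.1 hd
      exact mem_iUnion.2 ⟨i, hi, mem_iInter.1 hdK i⟩
    exact (isMeagre_iUnion (fun i => isMeagre_inter_compl_hull (A i))).mono this
  have hm2 : IsMeagre (u \ K) := by
    have : {d | d ∈ K ↔ d ∈ u} ∈ residual D := by
      have := hKu
      rw [eventuallyEq_set] at this
      exact this
    refine mem_of_superset this ?_
    intro d hd hd'
    exact hd'.2 (hd.2 hd'.1)
  have hm3 : IsMeagre (K \ u) := by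
    have : {d | d ∈ K ↔ d ∈ u} ∈ residual D := by
      have := hKu
      rw [eventuallyEq_set] at this
      exact this
    refine mem_of_superset this ?_
    intro d hd hd'
    exact hd'.2 (hd.1 hd'.1)
  have hfr : IsMeagre (H \ interior H) := by
    have : IsNowhereDense (frontier H) := by
      have h1 : IsClosed (frontier H) := isClosed_frontier
      rw [h1.isNowhereDense_iff]
      exact interior_frontier (isClosed_hull _)
    refine this.isMeagre.mono ?_
    rw [(isClosed_hull _ : IsClosed H).frontier_eq]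
  -- the open set `u ∩ interior H` is empty
  have hempty : u ∩ interior H = ∅ := by
    by_contra hne
    obtain ⟨d, hdu, hdH⟩ := nonempty_iff_ne_empty.2 hne
    have hd : d ∈ H := interior_subset hdH
    refine hd u hu hdu ?_
    refine (hm1.union hm2).mono ?_
    rintro x ⟨hx, hxu⟩
    by_cases hxK : x ∈ K
    · exact Or.inl ⟨hx, hxK⟩
    · exact Or.inr ⟨hxu, hxK⟩
  refine (hfr.union hm3).mono ?_
  rintro d ⟨hd, hd'⟩
  by_cases hdi : d ∈ interior H
  · right
    refine ⟨?_, fun hdu => ?_⟩
    · rw [hK, mem_iInter]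
      intro i hi
      exact hd' (mem_iUnion.2 ⟨i, hi⟩)
    · have : d ∈ u ∩ interior H := ⟨hdu, hdi⟩
      rw [hempty] at this
      exact this
  · left; exact ⟨hd, hdi⟩

/-- The projection of a part of a relation. -/
def proj {G : Type*} (R : Set (G × D)) (U : Set G) : Set D := {d | ∃ g ∈ U, (g, d) ∈ R}

theorem proj_iUnion {G ι : Type*} (R : Set (G × D)) (U : ι → Set G) :
    proj R (⋃ i, U i) = ⋃ i, proj R (U i) := by
  ext d
  simp only [proj, mem_iUnion]
  constructor
  · rintro ⟨g, ⟨i, hi⟩, h⟩; exact ⟨i, g, hi, h⟩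
  · rintro ⟨i, g, hi, h⟩; exact ⟨g, ⟨i, hi⟩, h⟩

open TopologicalSpace in
/-- For a closed relation `R ⊆ G × D` with `G` Polish, there is a comeagre set of `d` for which,
for all basic open `U`, the set `{d | ∃ g ∈ U, (g,d) ∈ R}` agrees with a closed set. -/
theorem residual_proj {G : Type*} [MetricSpace G] [CompleteSpace G] [SecondCountableTopology G]
    [SecondCountableTopology D] (R : Set (G × D)) (hR : IsClosed R) :
    ∀ᶠ d in residual D, ∀ U ∈ countableBasis G, (d ∈ proj R U ↔ d ∈ hull (proj R U)) := by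
  classical
  have hbas := isBasis_countableBasis G
  -- the first meagre sets
  have h1 : ∀ᶠ d in residual D, ∀ U ∈ countableBasis G, (d ∈ proj R U → d ∈ hull (proj R U)) := by
    rw [eventually_countable_ball (countable_countableBasis G)]
    intro U _
    have := isMeagre_diff_hull (proj R U)
    refine mem_of_superset this ?_
    intro d hd hdU
    by_contra h
    exact hd ⟨hdU, h⟩
  have h2 : ∀ᶠ d in residual D, ∀ U ∈ countableBasis G, ∀ n : ℕ, (d ∈ hull (proj R U) →
      ∃ V ∈ countableBasis G, d ∈ hull (proj R V) ∧ closure V ⊆ U ∧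
        ∀ x ∈ V, ∀ y ∈ V, dist x y < 1 / ((n : ℝ) + 1)) := by
    rw [eventually_countable_ball (countable_countableBasis G)]
    intro U hU
    rw [eventually_countable_forall]
    intro n
    let I := {V : Set G // V ∈ countableBasis G ∧ closure V ⊆ U ∧
        ∀ x ∈ V, ∀ y ∈ V, dist x y < 1 / ((n : ℝ) + 1)}
    haveI : Countable I := by
      have : Countable {V : Set G // V ∈ countableBasis G} :=
        (countable_countableBasis G).to_subtype
      exact Function.Injective.countable
        (f := fun V : I => (⟨V.1, V.2.1⟩ : {V : Set G // V ∈ countableBasis G}))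
        (fun V V' h => Subtype.ext (by simpa using h))
    have hUn : U = ⋃ V : I, V.1 := by
      apply subset_antisymm
      · intro g hg
        have hUo : IsOpen U := hbas.isOpen hU
        obtain ⟨r, hr, hrU⟩ := Metric.isOpen_iff.1 hUo g hg
        have hpos : (0 : ℝ) < 1 / ((n : ℝ) + 1) := by positivity
        set s := min (r / 2) (1 / ((n : ℝ) + 1) / 2) with hs
        have hs0 : 0 < s := lt_min (by positivity) (by positivity)
        obtain ⟨V, hV, hgV, hVs⟩ := hbas.exists_subset_of_mem_open
          (Metric.mem_ball_self (x := g) hs0) Metric.isOpen_ball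
        refine mem_iUnion.2 ⟨⟨V, hV, ?_, ?_⟩, hgV⟩
        · refine (closure_mono hVs).trans (Metric.closure_ball_subset_closedBall.trans ?_)
          refine (Metric.closedBall_subset_ball ?_).trans hrU
          have := min_le_left (r / 2) (1 / ((n : ℝ) + 1) / 2)
          linarith
        · intro x hx y hy
          have hx' := Metric.mem_ball.1 (hVs hx)
          have hy' := Metric.mem_ball.1 (hVs hy)
          have := dist_triangle_right x y g
          have := min_le_right (r / 2) (1 / ((n : ℝ) + 1) / 2)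
          linarith
      · exact iUnion_subset fun V => subset_closure.trans V.2.2.1
    have hm := isMeagre_hull_iUnion (fun V : I => proj R V.1)
    rw [← proj_iUnion, ← hUn] at hm
    refine mem_of_superset hm ?_
    intro d hd hdU
    have : d ∈ ⋃ i : I, hull (proj R i.1) := by
      by_contra h
      exact hd ⟨hdU, h⟩
    obtain ⟨V, hV⟩ := mem_iUnion.1 this
    exact ⟨V.1, V.2.1, hV, V.2.2.1, V.2.2.2⟩
  filter_upwards [h1, h2] with d hd1 hd2 U hU
  refine ⟨hd1 U hU, fun hdU => ?_⟩
  -- the recursive construction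
  have step : ∀ (n : ℕ) (V : {V : Set G // V ∈ countableBasis G ∧ d ∈ hull (proj R V)}),
      ∃ V' : {V : Set G // V ∈ countableBasis G ∧ d ∈ hull (proj R V)},
        closure V'.1 ⊆ V.1 ∧ ∀ x ∈ V'.1, ∀ y ∈ V'.1, dist x y < 1 / ((n : ℝ) + 1) := by
    intro n V
    obtain ⟨V', hV', h, h', h''⟩ := hd2 V.1 V.2.1 n V.2.2
    exact ⟨⟨V', hV', h⟩, h', h''⟩
  choose f hf1 hf2 using step
  let V : ℕ → {V : Set G // V ∈ countableBasis G ∧ d ∈ hull (proj R V)} :=
    fun n => Nat.rec ⟨U, hU, hdU⟩ (fun n V => f n V) n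
  have hV1 : ∀ n, closure (V (n + 1)).1 ⊆ (V n).1 := fun n => hf1 n (V n)
  have hV2 : ∀ n, ∀ x ∈ (V (n + 1)).1, ∀ y ∈ (V (n + 1)).1, dist x y < 1 / ((n : ℝ) + 1) :=
    fun n => hf2 n (V n)
  have hanti : Antitone (fun n => (V n).1) :=
    antitone_nat_of_succ_le fun n => subset_closure.trans (hV1 n)
  obtain ⟨W, hW⟩ := (𝓝 d).exists_antitone_basis
  have hex : ∀ n, ∃ g ∈ (V n).1, ∃ e ∈ W n, (g, e) ∈ R := by
    intro n
    have hcl : d ∈ closure (proj R (V n).1) := hull_subset_closure _ (V n).2.2
    obtain ⟨e, heW, g, hg, hgR⟩ := mem_closure_iff_nhds.1 hcl (W n) (hW.mem n)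
    exact ⟨g, hg, e, heW, hgR⟩
  choose g hg e he hge using hex
  have hcau : CauchySeq g := by
    rw [Metric.cauchySeq_iff']
    intro ε hε
    obtain ⟨N, hN⟩ := exists_nat_one_div_lt hε
    refine ⟨N + 1, fun n hn => ?_⟩
    exact (hV2 N _ (hanti hn (hg n)) _ (hg (N + 1))).trans hN
  obtain ⟨g0, hg0⟩ := cauchySeq_tendsto_of_complete hcau
  have he0 : Tendsto e atTop (𝓝 d) := hW.tendsto he
  have hR0 : (g0, d) ∈ R :=
    hR.mem_of_tendsto (hg0.prodMk_nhds he0) (Eventually.of_forall hge)
  refine ⟨g0, ?_, hR0⟩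
  refine hV1 0 (mem_closure_of_tendsto hg0 ?_)
  filter_upwards [eventually_ge_atTop 1] with n hn
  exact hanti hn (hg n)

end Helper212.GenBorel
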