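import Mathlib

/-!
# A Borel selector for closed sets in a complete separable metric space
-/

open Set Filter Topology

namespace Helper212.GenBorel

variable {G : Type*} [MetricSpace G]

/-- The open set coded by a list of indices of centres. -/
def cell (q : ℕ → G) : List ℕ → Set G
  | [] => univ
  | (k :: l) => cell q l ∩ Metric.ball (q k) ((1 / 2 : ℝ) ^ l.length)

theorem isOpen_cell (q : ℕ → G) : ∀ l, IsOpen (cell q l)
  | [] => isOpen_univ
  | (_ :: l) => (isOpen_cell q l).inter Metric.isOpen_ball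

/-- The next index. -/
noncomputable def nxt (q : ℕ → G) (F : Set G) (l : List ℕ) : ℕ :=
  sInf {k | (F ∩ cell q (k :: l)).Nonempty}

/-- The list of the first `n` indices. -/
noncomputable def code (q : ℕ → G) (F : Set G) : ℕ → List ℕ
  | 0 => []
  | (n + 1) => nxt q F (code q F n) :: code q F n

/-- The `n`-th index. -/
noncomputable def cen (q : ℕ → G) (F : Set G) (n : ℕ) : ℕ := nxt q F (code q F n)

theorem length_code (q : ℕ → G) (F : Set G) : ∀ n, (code q F n).length = n
  | 0 => rfl
  | (n + 1) => by rw [code, List.length_cons, length_code q F n]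

theorem nonempty_code {q : ℕ → G} (hq : DenseRange q) {F : Set G} (hF : F.Nonempty) :
    ∀ n, (F ∩ cell q (code q F n)).Nonempty
  | 0 => by simpa [code, cell] using hF
  | (n + 1) => by
    obtain ⟨g, hgF, hg⟩ := nonempty_code hq hF n
    have : {k | (F ∩ cell q (k :: code q F n)).Nonempty}.Nonempty := by
      obtain ⟨k, hk⟩ := hq.exists_dist_lt g
        (show (0 : ℝ) < (1 / 2 : ℝ) ^ (code q F n).length by positivity)
      exact ⟨k, g, hgF, hg, hk⟩
    exact Nat.sInf_mem this

theorem cell_code_anti (q : ℕ → G) (F : Set G) : Antitone fun n => cell q (code q F n) :=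
  antitone_nat_of_succ_le fun _ => inter_subset_left

theorem cell_code_sub (q : ℕ → G) (F : Set G) {n m : ℕ} (h : n + 1 ≤ m) :
    cell q (code q F m) ⊆ Metric.ball (q (cen q F n)) ((1 / 2 : ℝ) ^ n) := by
  refine (cell_code_anti q F h).trans ?_
  intro g hg
  have := hg.2
  rwa [length_code] at this

theorem exists_sel [CompleteSpace G] {q : ℕ → G} (hq : DenseRange q) {F : Set G}
    (hF : F.Nonempty) (hc : IsClosed F) :
    ∃ g ∈ F, ∀ n, dist g (q (cen q F n)) ≤ (1 / 2 : ℝ) ^ n := by
  choose g hgF hg using nonempty_code hq hF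
  have hb : ∀ n m, n + 1 ≤ m → dist (g m) (q (cen q F n)) < (1 / 2 : ℝ) ^ n :=
    fun n m h => cell_code_sub q F h (hg m)
  have hcau : CauchySeq g := by
    rw [Metric.cauchySeq_iff']
    intro ε hε
    obtain ⟨N, hN⟩ := exists_pow_lt_of_lt_one (show (0 : ℝ) < ε / 2 by positivity)
      (show (1 / 2 : ℝ) < 1 by norm_num)
    refine ⟨N + 1, fun n hn => ?_⟩
    have h1 := hb N n hn
    have h2 := hb N (N + 1) le_rfl
    have := dist_triangle_right (g n) (g (N + 1)) (q (cen q F N))
    linarith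
  obtain ⟨g0, hg0⟩ := cauchySeq_tendsto_of_complete hcau
  refine ⟨g0, hc.mem_of_tendsto hg0 (Eventually.of_forall hgF), fun n => ?_⟩
  refine le_of_tendsto (hg0.dist tendsto_const_nhds) ?_
  filter_upwards [eventually_ge_atTop (n + 1)] with m hm
  exact (hb n m hm).le

theorem sel_unique {q : ℕ → G} {F : Set G} {g g' : G}
    (h : ∀ n, dist g (q (cen q F n)) ≤ (1 / 2 : ℝ) ^ n)
    (h' : ∀ n, dist g' (q (cen q F n)) ≤ (1 / 2 : ℝ) ^ n) : g = g' := by
  rw [← dist_le_zero]
  refine le_of_forall_pos_le_add fun ε hε => ?_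
  obtain ⟨N, hN⟩ := exists_pow_lt_of_lt_one (show (0 : ℝ) < ε / 2 by positivity)
      (show (1 / 2 : ℝ) < 1 by norm_num)
  have h1 := h N
  have h2 := h' N
  have := dist_triangle_right g g' (q (cen q F N))
  linarith

section Meas

variable {Y : Type*} [MeasurableSpace Y]

theorem sInf_eq_iff' (A : Set ℕ) (k : ℕ) :
    sInf A = k ↔ ((k ∈ A ∧ ∀ j < k, j ∉ A) ∨ (k = 0 ∧ ∀ j, j ∉ A)) := by
  constructor
  · intro h
    by_cases hne : A.Nonempty
    · left
      have h1 := Nat.sInf_mem hne
      rw [h] at h1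
      refine ⟨h1, fun j hj hj' => ?_⟩
      have : sInf A ≤ j := Nat.sInf_le hj'
      omega
    · right
      rw [not_nonempty_iff_eq_empty] at hne
      refine ⟨?_, fun j hj => ?_⟩
      · rw [← h, hne, Nat.sInf_empty]
      · rw [hne] at hj; exact hj
  · rintro (⟨h1, h2⟩ | ⟨h1, h2⟩)
    · apply le_antisymm (Nat.sInf_le h1)
      by_contra hlt
      exact h2 _ (not_le.1 hlt) (Nat.sInf_mem ⟨k, h1⟩)
    · have : A = ∅ := by
        ext j; simpa using h2 j
      rw [this, Nat.sInf_empty, h1]

theorem measurableSet_sInf (A : Y → Set ℕ) (hA : ∀ j, MeasurableSet {y | j ∈ A y}) (k : ℕ) :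
    MeasurableSet {y | sInf (A y) = k} := by
  have key : {y | sInf (A y) = k} =
      ({y | k ∈ A y} ∩ ⋂ j : {j // j < k}, {y | j.1 ∈ A y}ᶜ) ∪
      ({_y | k = 0} ∩ ⋂ j : ℕ, {y | j ∈ A y}ᶜ) := by
    ext y
    simp only [mem_ofPred_eq, mem_union, mem_inter_iff, mem_iInter, mem_compl_iff, Subtype.forall]
    exact sInf_eq_iff' (A y) k
  rw [key]
  refine ((hA k).inter (MeasurableSet.iInter fun j : {j // j < k} => (hA j.1).compl)).union ?_
  exact (MeasurableSet.const _).inter (MeasurableSet.iInter fun j => (hA j).compl)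

theorem measurableSet_nxt (q : ℕ → G) (F : Y → Set G)
    (hF : ∀ O : Set G, IsOpen O → MeasurableSet {y | (F y ∩ O).Nonempty}) (l : List ℕ) (k : ℕ) :
    MeasurableSet {y | nxt q (F y) l = k} :=
  measurableSet_sInf (fun y => {k | (F y ∩ cell q (k :: l)).Nonempty})
    (fun j => hF _ (isOpen_cell q (j :: l))) k

theorem measurableSet_code (q : ℕ → G) (F : Y → Set G)
    (hF : ∀ O : Set G, IsOpen O → MeasurableSet {y | (F y ∩ O).Nonempty}) :
    ∀ (n : ℕ) (l : List ℕ), MeasurableSet {y | code q (F y) n = l}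
  | 0, l => by
    have : {y : Y | code q (F y) 0 = l} = {_y | [] = l} := rfl
    rw [this]
    exact MeasurableSet.const _
  | (n + 1), [] => by
    have : {y : Y | code q (F y) (n + 1) = []} = ∅ := by
      ext y; simp [code]
    rw [this]; exact MeasurableSet.empty
  | (n + 1), (k :: l) => by
    have : {y : Y | code q (F y) (n + 1) = k :: l} =
        {y | code q (F y) n = l} ∩ {y | nxt q (F y) l = k} := by
      ext y
      simp only [code, mem_ofPred_eq, List.cons.injEq, mem_inter_iff]
      constructor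
      · rintro ⟨h1, h2⟩; rw [h2] at h1; exact ⟨h2, h1⟩
      · rintro ⟨h1, h2⟩; rw [h1]; exact ⟨h2, rfl⟩
    rw [this]
    exact (measurableSet_code q F hF n l).inter (measurableSet_nxt q F hF l k)

theorem measurableSet_cen (q : ℕ → G) (F : Y → Set G)
    (hF : ∀ O : Set G, IsOpen O → MeasurableSet {y | (F y ∩ O).Nonempty}) (n k : ℕ) :
    MeasurableSet {y | cen q (F y) n = k} := by
  have : {y | cen q (F y) n = k} =
      ⋃ l : List ℕ, ({y | code q (F y) n = l} ∩ {y | nxt q (F y) l = k}) := by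
    ext y
    simp only [cen, mem_ofPred_eq, mem_iUnion, mem_inter_iff]
    constructor
    · intro h; exact ⟨_, rfl, h⟩
    · rintro ⟨l, h1, h2⟩; rw [h1]; exact h2
  rw [this]
  exact MeasurableSet.iUnion fun l =>
    (measurableSet_code q F hF n l).inter (measurableSet_nxt q F hF l k)

theorem measurableSet_sel [MeasurableSpace G] [OpensMeasurableSpace G] (q : ℕ → G) (F : Y → Set G)
    (hF : ∀ O : Set G, IsOpen O → MeasurableSet {y | (F y ∩ O).Nonempty})
    (γ : Y → G) (hγ : Measurable γ) :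
    MeasurableSet {y | ∀ n, dist (γ y) (q (cen q (F y) n)) ≤ (1 / 2 : ℝ) ^ n} := by
  have : {y | ∀ n, dist (γ y) (q (cen q (F y) n)) ≤ (1 / 2 : ℝ) ^ n} =
      ⋂ n : ℕ, ⋃ k : ℕ, ({y | cen q (F y) n = k} ∩
        γ ⁻¹' (Metric.closedBall (q k) ((1 / 2 : ℝ) ^ n))) := by
    ext y
    simp only [mem_ofPred_eq, mem_iInter, mem_iUnion, mem_inter_iff, mem_preimage,
      Metric.mem_closedBall]
    refine forall_congr' fun n => ?_
    constructor
    · intro h; exact ⟨_, rfl, h⟩
    · rintro ⟨k, h1, h2⟩; rw [h1]; exact h2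
  rw [this]
  exact MeasurableSet.iInter fun n => MeasurableSet.iUnion fun k =>
    (measurableSet_cen q F hF n k).inter (hγ Metric.isClosed_closedBall.measurableSet)

end Meas

end Helper212.GenBorel
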