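import Mathlib
import Pool.Agent.Helper212.GenBorel.Cat
import Pool.Agent.Helper212.GenBorel.Sel

/-!
# Orbit equivalence relations are Borel on a dense G_δ set, relative to a continuous map
-/

open Set Filter Topology TopologicalSpace MeasureTheory

namespace Helper212.GenBorel

theorem exists_borel {G X D : Type*} [Group G] [TopologicalSpace G] [IsTopologicalGroup G]
    [PolishSpace G] [TopologicalSpace X] [T2Space X] [SecondCountableTopology X]
    [TopologicalSpace D] [PolishSpace D]
    (a : G → X → X) (ha : Continuous fun p : G × X => a p.1 p.2)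
    (h1 : ∀ x, a 1 x = x) (hm : ∀ g h x, a (g * h) x = a g (a h x))
    (ι : D → X) (hι : Continuous ι) (C : Set D) (hC : C ∈ residual D) :
    ∃ S : Set D, S ⊆ C ∧ IsGδ S ∧ Dense S ∧
      @MeasurableSet (S × S) (borel (S × S)) {p : S × S | ∃ g, a g (ι p.1) = ι p.2} := by
  classical
  let _ := upgradeIsCompletelyMetrizable G
  set R : Set (G × D) := {p | a p.1 (ι p.2) = ι p.2} with hRdef
  have hR : IsClosed R :=
    isClosed_eq (ha.comp (continuous_fst.prodMk (hι.comp continuous_snd)))
      (hι.comp continuous_snd)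
  have hres := residual_proj R hR
  obtain ⟨S, hSsub, hSG, hSd⟩ := mem_residual.1 (inter_mem hC hres)
  refine ⟨S, fun d hd => (hSsub hd).1, hSG, hSd, ?_⟩
  have hSA : ∀ d ∈ S, ∀ U ∈ countableBasis G, (d ∈ proj R U ↔ d ∈ hull (proj R U)) :=
    fun d hd => (hSsub hd).2
  borelize G D X
  have hSm : MeasurableSet S := hSG.measurableSet
  have : StandardBorelSpace S := hSm.standardBorel
  let F : S × G → Set G := fun y => {h | a h (ι y.1) = a y.2 (ι y.1)}
  have hbas := isBasis_countableBasis G
  have hF : ∀ O : Set G, IsOpen O → MeasurableSet {y : S × G | (F y ∩ O).Nonempty} := by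
    intro O hO
    let I := {p : Set G × Set G // (p.1 ∈ countableBasis G ∧ p.2 ∈ countableBasis G) ∧
      ∀ g ∈ p.1, ∀ s ∈ p.2, g * s ∈ O}
    have : Countable I := by
      have h0 : (countableBasis G ×ˢ countableBasis G).Countable :=
        (countable_countableBasis G).prod (countable_countableBasis G)
      have : Countable (countableBasis G ×ˢ countableBasis G : Set (Set G × Set G)) :=
        h0.to_subtype
      exact Function.Injective.countable
        (f := fun p : I => (⟨p.1, p.2.1⟩ :
          (countableBasis G ×ˢ countableBasis G : Set (Set G × Set G))))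
        (fun p p' h => Subtype.ext (by simpa using h))
    have key : {y : S × G | (F y ∩ O).Nonempty} =
        ⋃ p : I, ((fun y : S × G => (y.1 : D)) ⁻¹' (hull (proj R p.1.2))) ∩
          (Prod.snd ⁻¹' p.1.1) := by
      ext y
      obtain ⟨d, g⟩ := y
      constructor
      · rintro ⟨h, hh, hhO⟩
        change a h (ι d) = a g (ι d) at hh
        set s := g⁻¹ * h with hs
        have hs1 : a s (ι d) = ι d := by
          rw [hs, hm, hh, ← hm, inv_mul_cancel, h1]
        have hgs : g * s ∈ O := by rw [hs, mul_inv_cancel_left]; exact hhO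
        have hnh : (fun p : G × G => p.1 * p.2) ⁻¹' O ∈ 𝓝 (g, s) :=
          (continuous_mul.isOpen_preimage _ hO).mem_nhds hgs
        rw [mem_nhds_prod_iff'] at hnh
        obtain ⟨W, V, hW, hgW, hV, hsV, hWV⟩ := hnh
        obtain ⟨W', hW', hgW', hWW'⟩ := hbas.exists_subset_of_mem_open hgW hW
        obtain ⟨V', hV', hsV', hVV'⟩ := hbas.exists_subset_of_mem_open hsV hV
        refine mem_iUnion.2 ⟨⟨(W', V'), ⟨hW', hV'⟩, ?_⟩, ?_, hgW'⟩
        · intro g' hg' s' hs'
          exact hWV (show (g', s') ∈ W ×ˢ V from ⟨hWW' hg', hVV' hs'⟩)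
        · exact (hSA d d.2 V' hV').1 ⟨s, hsV', hs1⟩
      · intro h
        obtain ⟨⟨⟨W, V⟩, ⟨hW, hV⟩, hO'⟩, hd, hg⟩ := mem_iUnion.1 h
        obtain ⟨s, hsV, hs⟩ := (hSA d d.2 V hV).2 hd
        refine ⟨g * s, ?_, hO' g hg s hsV⟩
        change a (g * s) (ι d) = a g (ι d)
        rw [hm]
        exact congrArg _ hs
    rw [key]
    refine MeasurableSet.iUnion fun p => MeasurableSet.inter ?_ ?_
    · exact (measurable_subtype_coe.comp measurable_fst) (isClosed_hull _).measurableSet
    · exact measurable_snd (hbas.isOpen p.2.1.1).measurableSet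
  let q := denseSeq G
  have hq : DenseRange q := denseRange_denseSeq G
  let T : Set (S × G) := {y | ∀ n, dist y.2 (q (cen q (F y) n)) ≤ (1 / 2 : ℝ) ^ n}
  have hT : MeasurableSet T := measurableSet_sel q F hF Prod.snd measurable_snd
  let φ : S × G → S × X := fun y => (y.1, a y.2 (ι y.1))
  have hφ : Continuous φ := by
    refine continuous_fst.prodMk (ha.comp (continuous_snd.prodMk ?_))
    exact hι.comp (continuous_subtype_val.comp continuous_fst)
  have hinj : InjOn φ T := by
    rintro ⟨d, g⟩ hg ⟨d', g'⟩ hg' he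
    have he1 : d = d' := congrArg Prod.fst he
    subst he1
    have he2 : a g (ι d) = a g' (ι d) := congrArg Prod.snd he
    have hFe : F (d, g) = F (d, g') := by
      ext h
      change a h (ι d) = a g (ι d) ↔ a h (ι d) = a g' (ι d)
      rw [he2]
    have hg1 : ∀ n, dist g (q (cen q (F (d, g)) n)) ≤ (1 / 2 : ℝ) ^ n := hg
    have hg2 : ∀ n, dist g' (q (cen q (F (d, g')) n)) ≤ (1 / 2 : ℝ) ^ n := hg'
    rw [← hFe] at hg2
    rw [sel_unique hg1 hg2]
  have himg := hT.image_of_measurable_injOn hφ.measurable hinj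
  have hpre : {p : S × S | ∃ g, a g (ι p.1) = ι p.2} =
      (fun p : S × S => (p.1, ι p.2)) ⁻¹' (φ '' T) := by
    ext ⟨d, d'⟩
    constructor
    · rintro ⟨g, hg⟩
      have hcl : IsClosed (F (d, g)) := by
        refine isClosed_eq (ha.comp (continuous_id.prodMk continuous_const)) continuous_const
      obtain ⟨g', hg'F, hg'⟩ := exists_sel hq (F := F (d, g)) ⟨g, rfl⟩ hcl
      have he2 : a g' (ι d) = a g (ι d) := hg'F
      have hFe : F (d, g') = F (d, g) := by
        ext h
        change a h (ι d) = a g' (ι d) ↔ a h (ι d) = a g (ι d)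
        rw [he2]
      refine ⟨(d, g'), ?_, ?_⟩
      · change ∀ n, dist g' (q (cen q (F (d, g')) n)) ≤ (1 / 2 : ℝ) ^ n
        rw [hFe]; exact hg'
      · change (d, a g' (ι d)) = (d, ι d')
        rw [he2]; exact congrArg _ hg
    · rintro ⟨⟨e, g⟩, -, he⟩
      have he1 : e = d := congrArg Prod.fst he
      subst he1
      exact ⟨g, congrArg Prod.snd he⟩
  rw [hpre]
  have hc : Continuous (fun p : S × S => (p.1, ι p.2)) :=
    continuous_fst.prodMk (hι.comp (continuous_subtype_val.comp continuous_snd))
  borelize (S × S)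
  exact hc.measurable himg

end Helper212.GenBorel
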