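import Mathlib
import Pool.Agent.Helper212.GenBorel.Main

/-!
# The monoid of continuous self-maps and its group of units
-/

open Set Filter Topology TopologicalSpace MeasureTheory

namespace Helper212.GenBorel

/-- Continuous self-maps of `M`, as a monoid under composition. -/
def SelfMap (M : Type*) [TopologicalSpace M] := C(M, M)

variable {M : Type*} [TopologicalSpace M]

instance : TopologicalSpace (SelfMap M) := inferInstanceAs (TopologicalSpace C(M, M))

instance [T2Space M] : T2Space (SelfMap M) := inferInstanceAs (T2Space C(M, M))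

instance : Monoid (SelfMap M) where
  mul f g := ContinuousMap.comp (show C(M, M) from f) (show C(M, M) from g)
  one := ContinuousMap.id M
  mul_assoc _ _ _ := rfl
  one_mul _ := rfl
  mul_one _ := rfl

instance [LocallyCompactSpace M] : ContinuousMul (SelfMap M) where
  continuous_mul := by
    have h : Continuous fun x : C(M, M) × C(M, M) => x.2.comp x.1 :=
      ContinuousMap.continuous_comp'
    exact h.comp continuous_swap

theorem polish_selfMap [CompactSpace M] [T2Space M] [SecondCountableTopology M] :
    PolishSpace (SelfMap M) := by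
  let _ : MetricSpace M := metrizableSpaceMetric M
  have h : PolishSpace C(M, M) := inferInstance
  exact h

theorem polish_units [CompactSpace M] [T2Space M] [SecondCountableTopology M] :
    PolishSpace (SelfMap M)ˣ := by
  have h := polish_selfMap (M := M)
  have h' : PolishSpace (SelfMap M)ᵐᵒᵖ :=
    (MulOpposite.opHomeomorph (M := SelfMap M)).symm.isClosedEmbedding.polishSpace
  exact (Units.isClosedEmbedding_embedProduct (α := SelfMap M)).polishSpace

/-- For a Polish space `D` and a continuous map `ι` from `D` to the space of continuous self-maps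
of a compact metrizable space `M`, there is a dense `G_δ` subset of `D` on which conjugacy by
homeomorphisms of `M` is Borel. -/
theorem exists_borel_conj [CompactSpace M] [T2Space M] [SecondCountableTopology M]
    {D : Type*} [TopologicalSpace D] [PolishSpace D] (ι : D → C(M, M)) (hι : Continuous ι)
    (C : Set D) (hC : C ∈ residual D) :
    ∃ S : Set D, S ⊆ C ∧ IsGδ S ∧ Dense S ∧ @MeasurableSet (S × S) (borel (S × S))
      {p : S × S | ∃ h : M ≃ₜ M, (h : M → M) ∘ ι p.1 = ι p.2 ∘ h} := by
  have h1 := polish_selfMap (M := M)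
  have h2 := polish_units (M := M)
  let a : (SelfMap M)ˣ → SelfMap M → SelfMap M :=
    fun g x => (g : SelfMap M) * x * ((g⁻¹ : (SelfMap M)ˣ) : SelfMap M)
  have ha : Continuous fun p : (SelfMap M)ˣ × SelfMap M => a p.1 p.2 := by
    refine ((Units.continuous_val.comp continuous_fst).mul continuous_snd).mul ?_
    exact Units.continuous_val.comp (continuous_inv.comp continuous_fst)
  have ha1 : ∀ x, a 1 x = x := fun x => by simp [a]
  have ham : ∀ g h x, a (g * h) x = a g (a h x) := fun g h x => by simp [a, mul_assoc]
  let κ : D → SelfMap M := ι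
  have hκ : Continuous κ := hι
  obtain ⟨S, hSC, hSG, hSd, hS⟩ := exists_borel a ha ha1 ham κ hκ C hC
  refine ⟨S, hSC, hSG, hSd, ?_⟩
  have he : {p : S × S | ∃ h : M ≃ₜ M, (h : M → M) ∘ ι p.1 = ι p.2 ∘ h} =
      {p : S × S | ∃ g : (SelfMap M)ˣ, a g (κ p.1) = κ p.2} := by
    ext p
    constructor
    · rintro ⟨h, hh⟩
      let g : (SelfMap M)ˣ := ⟨(⟨h, h.continuous⟩ : C(M, M)), (⟨h.symm, h.symm.continuous⟩ : C(M, M)),
        ContinuousMap.ext fun x => h.apply_symm_apply x,
        ContinuousMap.ext fun x => h.symm_apply_apply x⟩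
      refine ⟨g, ContinuousMap.ext fun x => ?_⟩
      have := congrFun hh (h.symm x)
      change h (ι p.1 (h.symm x)) = ι p.2 x
      have h3 : h (ι p.1 (h.symm x)) = ι p.2 (h (h.symm x)) := this
      rw [h3, h.apply_symm_apply]
    · rintro ⟨g, hg⟩
      let u : C(M, M) := (g : SelfMap M)
      let v : C(M, M) := ((g⁻¹ : (SelfMap M)ˣ) : SelfMap M)
      have huv : ∀ x, u (v x) = x := fun x => DFunLike.congr_fun (F := C(M, M)) g.mul_inv x
      have hvu : ∀ x, v (u x) = x := fun x => DFunLike.congr_fun (F := C(M, M)) g.inv_mul x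
      refine ⟨⟨⟨u, v, hvu, huv⟩, u.continuous, v.continuous⟩, ?_⟩
      ext x
      change u (ι p.1 x) = ι p.2 (u x)
      have h3 : u (ι p.1 (v (u x))) = ι p.2 (u x) := DFunLike.congr_fun (F := C(M, M)) hg (u x)
      rw [← h3, hvu]
  rw [he]
  exact hS

end Helper212.GenBorel
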